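import Pool.Agent.U581.LB.StmQ
import Pool.Agent.U603.LB.FOUR

/-! Project LQ, package MB1 (helper461). -/

set_option autoImplicit false

namespace Pool.Agent.U461.LB

open Real MeasureTheory ProbabilityTheory Pool.Agent.U581.LB
open Pool.Agent.U603.LB (yq_cont yq_le int_yq int_yq_sq Th_int u01_int)

theorem exp_aux {t : ℝ} (ht : 0 ≤ t) : exp t ≤ 1 + t + t ^ 2 / 2 * exp t := by
  have hm : MonotoneOn (fun s : ℝ => (1 + s) * exp (-s) + s ^ 2 / 2) (Set.Ici 0) := by
    apply monotoneOn_of_deriv_nonneg (convex_Ici 0)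
    · fun_prop
    · fun_prop
    · intro x hx
      rw [interior_Ici, Set.mem_Ioi] at hx
      have h1 : HasDerivAt (fun s : ℝ => (1 + s) * exp (-s) + s ^ 2 / 2)
          (1 * exp (-x) + (1 + x) * (exp (-x) * (-1)) + x) x := by
        have d1 : HasDerivAt (fun s : ℝ => 1 + s) 1 x := (hasDerivAt_id x).const_add 1
        have d2 : HasDerivAt (fun s : ℝ => exp (-s)) (exp (-x) * (-1)) x :=
          (hasDerivAt_neg x).exp
        have d3 : HasDerivAt (fun s : ℝ => s ^ 2 / 2) x x := by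
          refine ((hasDerivAt_pow 2 x).div_const 2).congr_deriv ?_
          norm_num
        exact (d1.mul d2).add d3
      rw [h1.deriv]
      have h2 : exp (-x) ≤ 1 := exp_le_one_iff.2 (by linarith)
      nlinarith
  have h3 := hm (Set.mem_Ici.2 le_rfl) (Set.mem_Ici.2 ht) ht
  simp only [neg_zero, exp_zero, add_zero, mul_one] at h3
  have h4 : (1 + t) * exp (-t) * exp t = 1 + t := by
    rw [mul_assoc, ← exp_add]
    simp
  have h5 := mul_le_mul_of_nonneg_right h3 (exp_pos t).le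
  have h6 : ((1 + t) * exp (-t) + t ^ 2 / 2) * exp t = 1 + t + t ^ 2 / 2 * exp t := by
    rw [add_mul, h4]
  rw [h6] at h5
  norm_num at h5
  linarith

theorem exp_le (z : ℝ) : exp z ≤ 1 + z + z ^ 2 / 2 * exp |z| := by
  have h1 := Complex.norm_exp_sub_sum_le_exp_norm_sub_sum (z : ℂ) 2
  simp only [Finset.sum_range_succ, Finset.sum_range_zero, pow_zero, pow_one, Nat.factorial,
    Nat.cast_one, div_one, zero_add, Complex.norm_real, Real.norm_eq_abs, mul_one] at h1
  have h2 : Complex.exp (z : ℂ) - (1 + (z : ℂ)) = ((exp z - (1 + z) : ℝ) : ℂ) := by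
    push_cast; rfl
  rw [h2, Complex.norm_real, Real.norm_eq_abs] at h1
  have h3 := (le_abs_self _).trans h1
  have h4 := exp_aux (abs_nonneg z)
  rw [sq_abs] at h4
  linarith

theorem pow_le_cosh (x : ℝ) (m : ℕ) :
    x ^ (2 * m) ≤ ((2 * m).factorial : ℝ) / 16 ^ m * ((exp (4 * x) + exp (-4 * x)) / 2) := by
  have h1 := Real.hasSum_cosh (4 * x)
  have h2 : (4 * x) ^ (2 * m) / ((2 * m).factorial : ℝ) ≤ cosh (4 * x) := by
    refine le_hasSum h1 m fun j _ => ?_
    rw [pow_mul]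
    positivity
  have h3 : (4 * x) ^ (2 * m) = 16 ^ m * x ^ (2 * m) := by
    rw [mul_pow, pow_mul (4 : ℝ)]
    norm_num
  have hf : (0 : ℝ) < ((2 * m).factorial : ℝ) := by exact_mod_cast Nat.factorial_pos _
  rw [h3, div_le_iff₀ hf, cosh_eq] at h2
  have h4 : -(4 * x) = -4 * x := by ring
  rw [h4] at h2
  rw [div_mul_eq_mul_div, le_div_iff₀ (by positivity)]
  linarith

theorem factor (c : ℕ → ℂ) (N q : ℕ) (hb : bq c N q ≤ 1) (σ : ℝ) (hσ : σ = 4 ∨ σ = -4) :
    ∫ x in (0 : ℝ)..1, exp (σ * Yq c N q x) ≤ exp (8 * exp 4 * vq c N q) := by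
  have hY := yq_cont c N q
  have hσ2 : σ ^ 2 = 16 := by rcases hσ with h | h <;> rw [h] <;> norm_num
  have hσa : |σ| = 4 := by
    rcases hσ with h | h <;> rw [h]
    · exact abs_of_pos (by norm_num)
    · rw [abs_neg]; exact abs_of_pos (by norm_num)
  have hpt : ∀ x : ℝ, exp (σ * Yq c N q x) ≤
      1 + σ * Yq c N q x + 8 * exp 4 * Yq c N q x ^ 2 := by
    intro x
    have h1 := exp_le (σ * Yq c N q x)
    have h2 : |σ * Yq c N q x| ≤ 4 := by
      rw [abs_mul, hσa]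
      have := (yq_le c N q x).trans hb
      linarith
    have h3 : exp |σ * Yq c N q x| ≤ exp 4 := exp_le_exp.2 h2
    have h4 : (σ * Yq c N q x) ^ 2 / 2 = 8 * Yq c N q x ^ 2 := by
      rw [mul_pow, hσ2]; ring
    rw [h4] at h1
    have h5 := mul_le_mul_of_nonneg_left h3 (by positivity : 0 ≤ 8 * Yq c N q x ^ 2)
    linarith
  have hc1 : Continuous fun x : ℝ => exp (σ * Yq c N q x) := by fun_prop
  have hc2 : Continuous fun x : ℝ => 1 + σ * Yq c N q x + 8 * exp 4 * Yq c N q x ^ 2 := by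
    fun_prop
  have h1 : ∫ x in (0 : ℝ)..1, exp (σ * Yq c N q x) ≤
      ∫ x in (0 : ℝ)..1, (1 + σ * Yq c N q x + 8 * exp 4 * Yq c N q x ^ 2) :=
    intervalIntegral.integral_mono_on (by norm_num) (hc1.intervalIntegrable _ _)
      (hc2.intervalIntegrable _ _) fun x _ => hpt x
  have h2 : ∫ x in (0 : ℝ)..1, (1 + σ * Yq c N q x + 8 * exp 4 * Yq c N q x ^ 2) =
      1 + 8 * exp 4 * vq c N q := by
    have i1 : IntervalIntegrable (fun x : ℝ => 1 + σ * Yq c N q x) volume 0 1 :=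
      (by fun_prop : Continuous fun x : ℝ => 1 + σ * Yq c N q x).intervalIntegrable _ _
    have i2 : IntervalIntegrable (fun x : ℝ => 8 * exp 4 * Yq c N q x ^ 2) volume 0 1 :=
      (by fun_prop : Continuous fun x : ℝ => 8 * exp 4 * Yq c N q x ^ 2).intervalIntegrable _ _
    have i3 : IntervalIntegrable (fun x : ℝ => σ * Yq c N q x) volume 0 1 :=
      (by fun_prop : Continuous fun x : ℝ => σ * Yq c N q x).intervalIntegrable _ _
    rw [intervalIntegral.integral_add i1 i2, intervalIntegral.integral_add (by simp) i3,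
      intervalIntegral.integral_const_mul, intervalIntegral.integral_const_mul, int_yq, int_yq_sq]
    simp
  rw [h2] at h1
  refine h1.trans ?_
  have := add_one_le_exp (8 * exp 4 * vq c N q)
  linarith

theorem exp_int (c : ℕ → ℂ) (N : ℕ) (Q : Finset ℕ) (hb : ∀ q ∈ Q, bq c N q ≤ 1) (σ : ℝ)
    (hσ : σ = 4 ∨ σ = -4) :
    ∫ θ, exp (σ * ∑ q ∈ Q, Yq c N q (θ q)) ∂Th ≤ exp (8 * exp 4 * ∑ q ∈ Q, vq c N q) := by
  have hg : ∀ q : ℕ, Measurable fun x : ℝ => exp (σ * Yq c N q x) := by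
    intro q
    have := yq_cont c N q
    exact (by fun_prop : Continuous fun x : ℝ => exp (σ * Yq c N q x)).measurable
  have hind : iIndepFun (fun (q : Q) (θ : ℕ → ℝ) => exp (σ * Yq c N q (θ q))) Th := by
    have h0 : iIndepFun (fun (q : ℕ) (θ : ℕ → ℝ) => exp (σ * Yq c N q (θ q))) Th := by
      unfold Th
      exact iIndepFun_infinitePi (X := fun q x => exp (σ * Yq c N q x)) hg
    exact h0.precomp Subtype.val_injective
  have h1 := hind.integral_fun_prod_eq_prod_integral fun q =>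
    ((hg q).comp (measurable_pi_apply (q : ℕ))).aestronglyMeasurable
  have h2 : ∀ θ : ℕ → ℝ, exp (σ * ∑ q ∈ Q, Yq c N q (θ q)) =
      ∏ q : Q, exp (σ * Yq c N q (θ q)) := by
    intro θ
    rw [← exp_sum, Finset.mul_sum]
    congr 1
    exact (Finset.sum_coe_sort Q fun q => σ * Yq c N q (θ q)).symm
  simp only [h2]
  rw [h1, Finset.mul_sum, exp_sum, ← Finset.prod_coe_sort Q]
  refine Finset.prod_le_prod (fun q _ => ?_) fun q _ => ?_
  · exact integral_nonneg fun θ => (exp_pos _).le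
  · have h3 := Th_int (fun x => exp (σ * Yq c N q x)) (hg q).stronglyMeasurable q
    refine le_trans (le_of_eq h3) ?_
    exact factor c N q (hb q q.2) σ hσ

theorem t_MB1 : S_MB1 := by
  intro c N m Q hQ hb
  have hm : ∀ q : ℕ, Measurable fun θ : ℕ → ℝ => Yq c N q (θ q) := fun q =>
    (yq_cont c N q).measurable.comp (measurable_pi_apply q)
  have hS : Measurable fun θ : ℕ → ℝ => ∑ q ∈ Q, Yq c N q (θ q) :=
    Finset.measurable_sum _ fun q _ => hm q
  have hSb : ∀ θ : ℕ → ℝ, |∑ q ∈ Q, Yq c N q (θ q)| ≤ ∑ q ∈ Q, bq c N q := fun θ =>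
    (Finset.abs_sum_le_sum_abs _ _).trans (Finset.sum_le_sum fun q _ => yq_le c N q (θ q))
  have hi1 : ∀ σ : ℝ, Integrable (fun θ : ℕ → ℝ => exp (σ * ∑ q ∈ Q, Yq c N q (θ q))) Th := by
    intro σ
    refine Integrable.of_bound (by fun_prop : Measurable _).aestronglyMeasurable
      (exp (|σ| * ∑ q ∈ Q, bq c N q)) (Filter.Eventually.of_forall fun θ => ?_)
    rw [Real.norm_eq_abs, abs_of_pos (exp_pos _)]
    apply exp_le_exp.2
    calc σ * ∑ q ∈ Q, Yq c N q (θ q) ≤ |σ * ∑ q ∈ Q, Yq c N q (θ q)| := le_abs_self _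
      _ = |σ| * |∑ q ∈ Q, Yq c N q (θ q)| := abs_mul _ _
      _ ≤ _ := mul_le_mul_of_nonneg_left (hSb θ) (abs_nonneg _)
  have hi2 : Integrable (fun θ : ℕ → ℝ => (∑ q ∈ Q, Yq c N q (θ q)) ^ (2 * m)) Th := by
    refine Integrable.of_bound (hS.pow_const _).aestronglyMeasurable
      ((∑ q ∈ Q, bq c N q) ^ (2 * m)) (Filter.Eventually.of_forall fun θ => ?_)
    rw [norm_pow, Real.norm_eq_abs]
    exact pow_le_pow_left₀ (abs_nonneg _) (hSb θ) _
  have hK : (0 : ℝ) ≤ ((2 * m).factorial : ℝ) / 16 ^ m := by positivity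
  calc ∫ θ, (∑ q ∈ Q, Yq c N q (θ q)) ^ (2 * m) ∂Th
      ≤ ∫ θ, ((2 * m).factorial : ℝ) / 16 ^ m * ((exp (4 * ∑ q ∈ Q, Yq c N q (θ q)) +
          exp (-4 * ∑ q ∈ Q, Yq c N q (θ q))) / 2) ∂Th := by
        refine integral_mono hi2 ?_ fun θ => pow_le_cosh _ m
        exact (((hi1 4).add (hi1 (-4))).div_const 2).const_mul _
    _ = ((2 * m).factorial : ℝ) / 16 ^ m * ((∫ θ, exp (4 * ∑ q ∈ Q, Yq c N q (θ q)) ∂Th +
          ∫ θ, exp (-4 * ∑ q ∈ Q, Yq c N q (θ q)) ∂Th) / 2) := by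
        rw [integral_const_mul, integral_div, integral_add (hi1 4) (hi1 (-4))]
    _ ≤ ((2 * m).factorial : ℝ) / 16 ^ m * exp (8 * exp 4 * ∑ q ∈ Q, vq c N q) := by
        apply mul_le_mul_of_nonneg_left _ hK
        have h1 := exp_int c N Q hb 4 (Or.inl rfl)
        have h2 := exp_int c N Q hb (-4) (Or.inr rfl)
        linarith
    _ ≤ 2 * ((2 * m).factorial : ℝ) / 16 ^ m * exp (8 * exp 4 * ∑ q ∈ Q, vq c N q) := by
        apply mul_le_mul_of_nonneg_right _ (exp_pos _).le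
        rw [mul_div_assoc]
        linarith

end Pool.Agent.U461.LB
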